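import Pool.Agent.Q80.KT.Stm

/-!
# Last exit from a ball
-/

open Finset
open scoped Classical

noncomputable section

namespace Q130.KT.EXIT

open Pool.Agent.Q80.KT

theorem t_EXIT : S_EXIT := by
  intro n G v w r _ hvw hw
  rw [SimpleGraph.reachable_iff_reflTransGen] at hvw
  induction hvw with
  | refl =>
    exfalso
    apply hw
    simp [ball]
  | @tail b c hvb hbc ih =>
    by_cases hb : b ∈ ball G v r
    · have hrb : G.Reachable v b := (SimpleGraph.reachable_iff_reflTransGen v b).2 hvb
      have hrc : G.Reachable v c := hrb.trans hbc.reachable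
      have hdb : G.dist v b ≤ r := (Finset.mem_filter.1 hb).2.2
      have hdc : ¬ G.dist v c ≤ r := fun h => hw (Finset.mem_filter.2 ⟨Finset.mem_univ _, hrc, h⟩)
      obtain ⟨p, hp⟩ := hrb.exists_walk_length_eq_dist
      have h1 : G.dist v c ≤ G.dist v b + 1 := by
        have := SimpleGraph.dist_le (p.concat hbc)
        rw [SimpleGraph.Walk.length_concat, hp] at this
        exact this
      refine ⟨b, Finset.mem_filter.2 ⟨Finset.mem_univ _, hrb, by omega⟩, Or.inr rfl, ?_⟩
      exact Relation.ReflTransGen.single ⟨hbc, Or.inr rfl, Or.inl hw⟩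
    · obtain ⟨x, hx, hxU, hxb⟩ := ih hb
      exact ⟨x, hx, hxU, hxb.tail ⟨hbc, Or.inl hb, Or.inl hw⟩⟩

end Q130.KT.EXIT
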